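import Pool.Agent.H38.CC.Main
import Pool.Agent.H38.CC.Greedy
import Pool.Agent.H38.CC.Asymp
import Pool.Agent.H38.CC.ES

set_option autoImplicit false

/-!
# An upper bound for the maximum ratio of chromatic number and clique number

`f(n)` is the maximum of `χ(G) / ω(G)` over all graphs `G` on `n` vertices
(`Naffefad5.maxChromaticCliqueRatio n` of the prelude). We prove
`f(n) ≤ 2.71 n / (log₂ n) ^ 2` for all large `n`; hence `limsup f(n) (log₂ n) ^ 2 / n ≤ 2.71`, and
the limit of Q1, if it exists, is at most `2.71` (the constant of Erdős's argument is `4`).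
-/

open Filter Topology Naffefad5

namespace Pool.Agent.Results.MP_327896_co.LimsupUpper

/-- `f(n) ≤ 2.71 n / (log₂ n) ^ 2` for all large `n`, so `limsup g(n) ≤ 2.71`, and if `g(n)` converges
then its limit is at most `2.71`. -/
theorem result :
    (∀ᶠ n : ℕ in atTop, maxChromaticCliqueRatio n ≤ 2.71 * ((n : ℝ) / Real.logb 2 n ^ 2)) ∧
    limsup (fun n : ℕ => maxChromaticCliqueRatio n / ((n : ℝ) / Real.logb 2 n ^ 2)) atTop ≤ 2.71 ∧
    ∀ L : ℝ, Tendsto (fun n : ℕ => maxChromaticCliqueRatio n / ((n : ℝ) / Real.logb 2 n ^ 2))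
      atTop (𝓝 L) → L ≤ 2.71 := by
  have h := Pool.Agent.H38.CC.main_of Pool.Agent.H38.CC.es Pool.Agent.H38.CC.greedy
    Pool.Agent.H38.CC.asymp
  have h0 : ∀ n : ℕ, 0 ≤ maxChromaticCliqueRatio n := fun n =>
    Real.iSup_nonneg fun G => by positivity
  have h1 : ∀ᶠ n : ℕ in atTop,
      maxChromaticCliqueRatio n / ((n : ℝ) / Real.logb 2 n ^ 2) ≤ 2.71 := by
    filter_upwards [h, eventually_ge_atTop 2] with n hn hn2
    have hn0 : (0 : ℝ) < n := by
      have : 0 < n := by omega
      exact_mod_cast this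
    have hl : 0 < Real.logb 2 n := Real.logb_pos (by norm_num) (by
      have : 1 < n := by omega
      exact_mod_cast this)
    rw [div_le_iff₀ (by positivity)]
    exact hn
  have h2 : ∀ n : ℕ, 0 ≤ maxChromaticCliqueRatio n / ((n : ℝ) / Real.logb 2 n ^ 2) := fun n =>
    div_nonneg (h0 n) (by positivity)
  refine ⟨h, ?_, fun L hL => le_of_tendsto hL h1⟩
  refine Filter.limsup_le_of_le ?_ h1
  exact Filter.IsBoundedUnder.isCoboundedUnder_le ⟨0, Filter.eventually_map.mpr
    (Filter.Eventually.of_forall h2)⟩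

end Pool.Agent.Results.MP_327896_co.LimsupUpper
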